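import Pool.Agent.Helper11.M3.Goals4b

/-!
# Packet M3-U_SM2: the sum of the bounds of `U_MNS`
-/

set_option autoImplicit false

namespace Pool.Agent.Helper31.M3

open Finset Pool.Agent.Helper11.M3 Pool.Agent.Helper17.PP

lemma log_le {ρ : ℝ} (hρ : 0 < ρ) :
    ∃ D : ℝ, 1 ≤ D ∧ ∀ L : ℕ, 1 ≤ L → (Nat.log 2 L : ℝ) ≤ D * (L : ℝ) ^ ρ := by
  have hl : 0 < Real.log 2 := Real.log_pos (by norm_num)
  refine ⟨1 / (ρ * Real.log 2) + 1, ?_, fun L hL => ?_⟩
  · have : (0 : ℝ) ≤ 1 / (ρ * Real.log 2) := by positivity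
    linarith
  · have h1 : (0 : ℝ) ≤ (L : ℝ) ^ ρ := Real.rpow_nonneg (by positivity) _
    have h2 : (Nat.log 2 L : ℝ) ≤ Real.log L / Real.log 2 := by
      have := Real.natLog_le_logb L 2
      simpa [Real.logb] using this
    have h3 : Real.log L ≤ (L : ℝ) ^ ρ / ρ := Real.log_le_rpow_div (by positivity) hρ
    have h4 : (Nat.log 2 L : ℝ) ≤ (L : ℝ) ^ ρ / ρ / Real.log 2 :=
      h2.trans (div_le_div_of_nonneg_right h3 hl.le)
    have h7 : (L : ℝ) ^ ρ / ρ / Real.log 2 = 1 / (ρ * Real.log 2) * (L : ℝ) ^ ρ := by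
      field_simp
    rw [h7] at h4
    linarith

lemma sl_le (A : ℕ) {η : ℝ} (hη : 0 < η) :
    ∃ D : ℝ, 1 ≤ D ∧ ∀ L : ℕ, 1 ≤ L → (sl A L : ℝ) + 2 ≤ D * (L : ℝ) ^ η := by
  have hA : (0 : ℝ) < (A : ℝ) + 1 := by positivity
  obtain ⟨D, hD, h⟩ := log_le (ρ := η / (A + 1)) (by positivity)
  refine ⟨D ^ A + 2, ?_, fun L hL => ?_⟩
  · have := one_le_pow₀ hD (n := A)
    linarith
  · have hL1 : (1 : ℝ) ≤ L := by exact_mod_cast hL
    have h1 : (1 : ℝ) ≤ (L : ℝ) ^ η := Real.one_le_rpow hL1 hη.le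
    have h2 : (sl A L : ℝ) ≤ D ^ A * (L : ℝ) ^ η := by
      have e1 : (sl A L : ℝ) = (Nat.log 2 L : ℝ) ^ A := by unfold sl; push_cast; ring
      rw [e1]
      have e2 : (Nat.log 2 L : ℝ) ^ A ≤ (D * (L : ℝ) ^ (η / (A + 1))) ^ A :=
        pow_le_pow_left₀ (by positivity) (h L hL) _
      refine e2.trans ?_
      rw [mul_pow]
      refine mul_le_mul_of_nonneg_left ?_ (by positivity)
      rw [← Real.rpow_natCast ((L : ℝ) ^ (η / (A + 1))) A, ← Real.rpow_mul (by positivity)]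
      refine Real.rpow_le_rpow_of_exponent_le hL1 ?_
      rw [div_mul_eq_mul_div, div_le_iff₀ hA]
      nlinarith
    nlinarith

/-- `(sl + 2) ^ M` is at most a small power of `L`. -/
lemma slp_le (A M : ℕ) {η : ℝ} (hη : 0 < η) :
    ∃ D : ℝ, 1 ≤ D ∧ ∀ L : ℕ, 1 ≤ L → ((sl A L : ℝ) + 2) ^ M ≤ D * (L : ℝ) ^ η := by
  have hM : (0 : ℝ) < (M : ℝ) + 1 := by positivity
  obtain ⟨D, hD, h⟩ := sl_le A (η := η / (M + 1)) (by positivity)
  refine ⟨D ^ M, one_le_pow₀ hD, fun L hL => ?_⟩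
  have hL1 : (1 : ℝ) ≤ L := by exact_mod_cast hL
  refine (pow_le_pow_left₀ (by positivity) (h L hL) M).trans ?_
  rw [mul_pow]
  refine mul_le_mul_of_nonneg_left ?_ (by positivity)
  rw [← Real.rpow_natCast ((L : ℝ) ^ (η / (M + 1))) M, ← Real.rpow_mul (by positivity)]
  refine Real.rpow_le_rpow_of_exponent_le hL1 ?_
  rw [div_mul_eq_mul_div, div_le_iff₀ hM]
  nlinarith

/-- The first series. -/
lemma summ (K' E : ℕ) {δ : ℝ} (hδ : 0 < δ) (hδ1 : δ ≤ 1) (hE : 1 ≤ E) :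
    Summable fun j : ℕ => ((j : ℝ) + 2) ^ K' *
      (((j + 1 : ℕ) : ℝ) / ((th E j + 1 : ℕ) : ℝ)) ^ δ := by
  have hE0 : (0 : ℝ) < E := by exact_mod_cast hE
  obtain ⟨r, hr⟩ : ∃ r : ℝ, r = (2 : ℝ) ^ (-(δ / (2 * E))) := ⟨_, rfl⟩
  have hr0 : 0 < r := by rw [hr]; positivity
  have hr1 : r < 1 := by
    rw [hr]
    exact Real.rpow_lt_one_of_one_lt_of_neg (by norm_num) (by
      have : 0 < δ / (2 * E) := by positivity
      linarith)
  have hs : Summable fun n : ℕ => (n : ℝ) ^ (K' + 1) * r ^ n :=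
    summable_pow_mul_geometric_of_norm_lt_one (K' + 1) (by
      rw [Real.norm_eq_abs, abs_of_pos hr0]; exact hr1)
  have hs2 := ((summable_nat_add_iff 2).2 hs).mul_left (2 / r ^ 2)
  refine Summable.of_nonneg_of_le (fun j => by positivity) (fun j => ?_) hs2
  have hj : (1 : ℝ) ≤ ((j + 1 : ℕ) : ℝ) := by push_cast; linarith [show (0 : ℝ) ≤ j by positivity]
  -- lower bound of `th`
  have h1 : (2 : ℝ) ^ ((j : ℝ) / (2 * E) - 1) ≤ ((th E j + 1 : ℕ) : ℝ) := by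
    have e1 : (j : ℝ) / (2 * E) - 1 ≤ ((j / (2 * E) : ℕ) : ℝ) := by
      have e2 : (j : ℝ) < (2 * E) * (((j / (2 * E) : ℕ) : ℝ) + 1) := by
        have e3 : j < (2 * E) * (j / (2 * E) + 1) := by
          have := Nat.lt_mul_div_succ j (show 0 < 2 * E by omega)
          exact this
        exact_mod_cast e3
      have e4 : (j : ℝ) / (2 * E) < ((j / (2 * E) : ℕ) : ℝ) + 1 := by
        rw [div_lt_iff₀ (by positivity)]
        linarith
      linarith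
    have e5 : (2 : ℝ) ^ ((j : ℝ) / (2 * E) - 1) ≤ (2 : ℝ) ^ (((j / (2 * E) : ℕ) : ℝ)) :=
      Real.rpow_le_rpow_of_exponent_le (by norm_num) e1
    rw [Real.rpow_natCast] at e5
    refine e5.trans ?_
    unfold th
    push_cast
    linarith
  have h2 : (((j + 1 : ℕ) : ℝ) / ((th E j + 1 : ℕ) : ℝ)) ^ δ ≤
      ((j : ℝ) + 2) * (2 * r ^ j) := by
    have e1 : ((j + 1 : ℕ) : ℝ) / ((th E j + 1 : ℕ) : ℝ) ≤
        ((j + 1 : ℕ) : ℝ) / (2 : ℝ) ^ ((j : ℝ) / (2 * E) - 1) :=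
      div_le_div_of_nonneg_left (by positivity) (by positivity) h1
    have e2 := Real.rpow_le_rpow (by positivity) e1 hδ.le
    refine e2.trans ?_
    rw [Real.div_rpow (by positivity) (by positivity), ← Real.rpow_mul (by norm_num)]
    have e3 : ((j + 1 : ℕ) : ℝ) ^ δ ≤ (j : ℝ) + 2 := by
      have := Real.rpow_le_rpow_of_exponent_le hj hδ1
      rw [Real.rpow_one] at this
      refine this.trans ?_
      push_cast; linarith
    have e4 : (2 : ℝ) ^ (((j : ℝ) / (2 * E) - 1) * δ) = (2 : ℝ) ^ (-δ) * (r ^ j)⁻¹ := by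
      rw [hr, ← Real.rpow_natCast, ← Real.rpow_mul (by norm_num), ← Real.rpow_neg (by norm_num),
        ← Real.rpow_add (by norm_num)]
      congr 1
      field_simp
      ring
    rw [e4, div_eq_mul_inv]
    refine mul_le_mul e3 ?_ (by positivity) (by positivity)
    rw [mul_inv, inv_inv]
    refine mul_le_mul_of_nonneg_right ?_ (by positivity)
    rw [Real.rpow_neg (by norm_num), inv_inv]
    have := Real.rpow_le_rpow_of_exponent_le (show (1 : ℝ) ≤ 2 by norm_num) hδ1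
    rwa [Real.rpow_one] at this
  calc ((j : ℝ) + 2) ^ K' * (((j + 1 : ℕ) : ℝ) / ((th E j + 1 : ℕ) : ℝ)) ^ δ
      ≤ ((j : ℝ) + 2) ^ K' * (((j : ℝ) + 2) * (2 * r ^ j)) :=
        mul_le_mul_of_nonneg_left h2 (by positivity)
    _ = 2 / r ^ 2 * (((j + 2 : ℕ) : ℝ) ^ (K' + 1) * r ^ (j + 2)) := by
        push_cast
        field_simp
        ring

theorem u_sm2 : U_SM2 := by
  intro K K' E A ε hK hE hε
  have hK0 : (0 : ℝ) < K := by exact_mod_cast hK
  have hK1 : (1 : ℝ) ≤ K := by exact_mod_cast hK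
  obtain ⟨δ, hδ⟩ : ∃ δ : ℝ, δ = 1 / (2 * K) := ⟨_, rfl⟩
  have hδ0 : 0 < δ := by rw [hδ]; positivity
  have hδ1 : δ ≤ 1 := by rw [hδ, div_le_one (by positivity)]; linarith
  rw [← hδ]
  -- the first part
  have hs1 := summ K' E hδ0 hδ1 hE
  obtain ⟨s1, hs1'⟩ := summable_iff_vanishing_norm.1 hs1 (ε / 2) (by positivity)
  refine ⟨s1.sup id + 1, fun j₀ hj₀ => ?_⟩
  have part1 : ∀ J : ℕ, ∑ j ∈ Ico j₀ J, ((j : ℝ) + 2) ^ K' *
      (((j + 1 : ℕ) : ℝ) / ((th E j + 1 : ℕ) : ℝ)) ^ δ ≤ ε / 2 := by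
    intro J
    have hd : Disjoint (Ico j₀ J) s1 := by
      rw [Finset.disjoint_left]
      intro a ha hb
      have h1 : a ≤ s1.sup id := Finset.le_sup (f := id) hb
      have h2 := (Finset.mem_Ico.1 ha).1
      omega
    exact (le_abs_self _).trans (hs1' _ hd).le
  -- the second part
  obtain ⟨D₁, hD₁, h₁⟩ := sl_le A (η := 1 / 2) (by norm_num)
  obtain ⟨D₂, hD₂, h₂⟩ := slp_le A (K' + 2) (η := δ / 2) (by positivity)
  have hL1 : ∀ᶠ L : ℕ in Filter.atTop, D₁ * (L : ℝ) ^ (-(1 / 2) : ℝ) ≤ 1 / 2 := by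
    have h1 := ((tendsto_rpow_neg_atTop (show (0 : ℝ) < 1 / 2 by norm_num)).comp
      tendsto_natCast_atTop_atTop).const_mul D₁
    rw [mul_zero] at h1
    exact (h1.eventually (gt_mem_nhds (show (0 : ℝ) < 1 / 2 by norm_num))).mono
      fun L h => le_of_lt h
  have hL2 : ∀ᶠ L : ℕ in Filter.atTop, 2 * D₂ * (L : ℝ) ^ (-(δ / 2)) ≤ ε / 2 := by
    have h1 := ((tendsto_rpow_neg_atTop (show (0 : ℝ) < δ / 2 by positivity)).comp
      tendsto_natCast_atTop_atTop).const_mul (2 * D₂)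
    rw [mul_zero] at h1
    exact (h1.eventually (gt_mem_nhds (show (0 : ℝ) < ε / 2 by positivity))).mono
      fun L h => le_of_lt h
  obtain ⟨L₀, hL₀⟩ := Filter.eventually_atTop.1 (hL1.and (hL2.and (Filter.eventually_ge_atTop 1)))
  refine ⟨L₀, fun L hL => ?_⟩
  obtain ⟨hA, hB, hL1'⟩ := hL₀ L hL
  have hLr : (1 : ℝ) ≤ L := by exact_mod_cast hL1'
  have hLr0 : (0 : ℝ) < L := by linarith
  obtain ⟨s, hs⟩ : ∃ s : ℕ, s = sl A L := ⟨_, rfl⟩
  rw [← hs]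
  have hsL : (s : ℝ) + 2 ≤ L / 2 := by
    have h3 := h₁ L hL1'
    rw [← hs] at h3
    refine h3.trans ?_
    have h4 : (L : ℝ) ^ (1 / 2 : ℝ) = (L : ℝ) ^ (-(1 / 2) : ℝ) * L := by
      nth_rewrite 3 [← Real.rpow_one (L : ℝ)]
      rw [← Real.rpow_add hLr0]
      norm_num
    rw [h4, ← mul_assoc]
    have := mul_le_mul_of_nonneg_right hA hLr0.le
    linarith
  have hv : ∀ j, j < s → (L : ℝ) / 2 ≤ ((L - j - 1 : ℕ) : ℝ) := by
    intro j hj
    have h3 : j + 1 ≤ s := hj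
    have h3r : (j : ℝ) + 1 ≤ s := by exact_mod_cast h3
    have h4 : j + 1 ≤ L := by
      have : (j : ℝ) + 1 ≤ L := by linarith
      exact_mod_cast this
    have h5 : ((L - j - 1 : ℕ) : ℝ) = (L : ℝ) - (j + 1) := by
      rw [Nat.sub_sub, Nat.cast_sub h4]
      push_cast; ring
    rw [h5]
    linarith
  have hterm : ∀ j ∈ Ico j₀ s, ((j : ℝ) + 2) ^ K' *
      (((j + 1 : ℕ) : ℝ) / (min (th E j + 1) (L - j - 1) : ℕ)) ^ δ ≤
      ((j : ℝ) + 2) ^ K' * (((j + 1 : ℕ) : ℝ) / ((th E j + 1 : ℕ) : ℝ)) ^ δ +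
        ((s : ℝ) + 2) ^ (K' + 1) * (2 / L) ^ δ := by
    intro j hj
    have hjs := (Finset.mem_Ico.1 hj).2
    have hv' := hv j hjs
    have p1 : (0 : ℝ) ≤ ((j : ℝ) + 2) ^ K' *
      (((j + 1 : ℕ) : ℝ) / ((th E j + 1 : ℕ) : ℝ)) ^ δ := by positivity
    have p2 : (0 : ℝ) ≤ ((s : ℝ) + 2) ^ (K' + 1) * (2 / L) ^ δ := by positivity
    rcases le_total (th E j + 1) (L - j - 1) with h | h
    · rw [min_eq_left h]; linarith
    · rw [min_eq_right h]
      refine le_trans ?_ (le_add_of_nonneg_left p1)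
      have hjr : (j : ℝ) + 1 ≤ s := by exact_mod_cast hjs
      have h3 : (((j + 1 : ℕ) : ℝ) / ((L - j - 1 : ℕ) : ℝ)) ≤ ((s : ℝ) + 2) * (2 / L) := by
        have h4 : (((j + 1 : ℕ) : ℝ) / ((L - j - 1 : ℕ) : ℝ)) ≤
            ((s : ℝ) + 2) / ((L : ℝ) / 2) := by
          refine div_le_div₀ (by positivity) ?_ (by positivity) hv'
          push_cast; linarith
        refine h4.trans (le_of_eq ?_)
        field_simp
      have h5 := Real.rpow_le_rpow (by positivity) h3 hδ0.le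
      rw [Real.mul_rpow (by positivity) (by positivity)] at h5
      have h6 : ((s : ℝ) + 2) ^ δ ≤ (s : ℝ) + 2 := by
        have := Real.rpow_le_rpow_of_exponent_le
          (show (1 : ℝ) ≤ (s : ℝ) + 2 by linarith [show (0 : ℝ) ≤ s by positivity]) hδ1
        rwa [Real.rpow_one] at this
      calc ((j : ℝ) + 2) ^ K' * (((j + 1 : ℕ) : ℝ) / ((L - j - 1 : ℕ) : ℝ)) ^ δ
          ≤ ((s : ℝ) + 2) ^ K' * (((s : ℝ) + 2) * (2 / L) ^ δ) := by
            refine mul_le_mul (pow_le_pow_left₀ (by positivity) (by linarith) _)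
              (h5.trans (mul_le_mul_of_nonneg_right h6 (by positivity))) (by positivity)
              (by positivity)
        _ = _ := by rw [pow_succ]; ring
  refine (Finset.sum_le_sum hterm).trans ?_
  rw [Finset.sum_add_distrib]
  have hfin : ∑ j ∈ Ico j₀ s, ((s : ℝ) + 2) ^ (K' + 1) * (2 / (L : ℝ)) ^ δ ≤ ε / 2 := by
    rw [Finset.sum_const, nsmul_eq_mul]
    have h3 : (((Ico j₀ s).card : ℕ) : ℝ) ≤ (s : ℝ) + 2 := by
      rw [Nat.card_Ico]
      have : ((s - j₀ : ℕ) : ℝ) ≤ s := by exact_mod_cast Nat.sub_le _ _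
      linarith
    have h4 : (2 / (L : ℝ)) ^ δ ≤ 2 * (L : ℝ) ^ (-δ) := by
      rw [Real.div_rpow (by norm_num) (by positivity), div_eq_mul_inv,
        ← Real.rpow_neg (by positivity)]
      refine mul_le_mul_of_nonneg_right ?_ (by positivity)
      have := Real.rpow_le_rpow_of_exponent_le (show (1 : ℝ) ≤ 2 by norm_num) hδ1
      rwa [Real.rpow_one] at this
    have h5 := h₂ L hL1'
    rw [← hs] at h5
    calc (((Ico j₀ s).card : ℕ) : ℝ) * (((s : ℝ) + 2) ^ (K' + 1) * (2 / (L : ℝ)) ^ δ)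
        ≤ ((s : ℝ) + 2) * (((s : ℝ) + 2) ^ (K' + 1) * (2 * (L : ℝ) ^ (-δ))) :=
          mul_le_mul h3 (mul_le_mul_of_nonneg_left h4 (by positivity)) (by positivity)
            (by positivity)
      _ = ((s : ℝ) + 2) ^ (K' + 2) * (2 * (L : ℝ) ^ (-δ)) := by
          rw [pow_succ _ (K' + 1)]; ring
      _ ≤ (D₂ * (L : ℝ) ^ (δ / 2)) * (2 * (L : ℝ) ^ (-δ)) :=
          mul_le_mul_of_nonneg_right h5 (by positivity)
      _ = 2 * D₂ * ((L : ℝ) ^ (δ / 2) * (L : ℝ) ^ (-δ)) := by ring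
      _ = 2 * D₂ * (L : ℝ) ^ (-(δ / 2)) := by
          rw [← Real.rpow_add hLr0]; congr 2; ring
      _ ≤ ε / 2 := hB
  linarith [part1 s]

end Pool.Agent.Helper31.M3
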